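import Pool.Agent.Q13.DS.Cons
import Pool.Agent.TH143.GE.Base

/-!
Sequences of points given by linear recurrences over difference fields, on varieties without
rational curves: they are algebraic over the coefficients.
-/

set_option autoImplicit false

namespace Pool.Agent.Q13.DS

open MvPolynomial Filter Pool.Agent.TH143 Pool.Agent.TH143.GT Pool.Agent.W602.GT
  Pool.Agent.W603.BP Pool.Agent.W603.GR Pool.Agent.W603.BPR Pool.Agent.TH143.DE
  Pool.Agent.TH143.HE Pool.Agent.TH143.TW Pool.Agent.TH143.GE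

variable {N : ℕ} {R : Type} [CommRing R] {B : Subalgebra ℂ (ℕ → ℂ)}

/-- The sequence `f` is integral over the field `B` of sequences: it satisfies a monic equation with
coefficients in `B`. -/
def IntOver (B : Subalgebra ℂ (ℕ → ℂ)) (f : ℕ → ℂ) : Prop :=
  ∃ (e : ℕ) (b : ℕ → ℕ → ℂ), 0 < e ∧ (∀ k, b k ∈ B) ∧
    ∀ᶠ m in atTop, f m ^ e + ∑ k ∈ Finset.range e, b k m * f m ^ k = 0

theorem intOver_of (hB : CoefField B) {f : ℕ → ℂ} (h : IsIntegral (KB B hB) (gg f)) :
    IntOver B f := by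
  obtain ⟨p, hp, hp0⟩ := h
  choose b hb using fun k => cK_surj hB (p.coeff k)
  have hlc : p.coeff p.natDegree = 1 := hp
  have h1 : gg (fun m => f m ^ p.natDegree + ∑ k ∈ Finset.range p.natDegree,
      (b k : ℕ → ℂ) m * f m ^ k) = 0 := by
    have h2 : (fun m => f m ^ p.natDegree + ∑ k ∈ Finset.range p.natDegree,
        (b k : ℕ → ℂ) m * f m ^ k) = f ^ p.natDegree + ∑ k ∈ Finset.range p.natDegree,
          (b k : ℕ → ℂ) * f ^ k := by
      funext m
      rw [Pi.add_apply, Finset.sum_apply]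
      rfl
    rw [h2, map_add, map_pow, map_sum]
    rw [Polynomial.eval₂_eq_sum_range, Finset.sum_range_succ, hlc, map_one, one_mul] at hp0
    rw [← hp0, add_comm]
    congr 1
    refine Finset.sum_congr rfl fun k _ => ?_
    rw [map_mul, map_pow, ← hb k]
    rfl
  refine ⟨p.natDegree, fun k => b k, ?_, fun k => (b k).2, gg_zero.1 h1⟩
  by_contra hcon
  have h2 : p.natDegree = 0 := by omega
  have h3 := gg_zero.1 h1
  rw [h2] at h3
  obtain ⟨m, hm⟩ := h3.exists
  simp at hm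

/-- **Points on varieties without rational curves are integral over the coefficients.** -/
theorem int_points {φ : R →+* ℂ} {I I' : Ideal (MvPolynomial (Fin (N + 1)) R)}
    (h : RatCurvesIn φ I I') (hB : CoefField B) {x : ℕ → Fin (N + 1) → ℂ}
    (hne : ∀ᶠ m in atTop, x m ≠ 0) (hx : ∀ j, LinRec B fun m => x m j)
    (hX : ∀ᶠ m in atTop, IsPtP φ I (x m)) (hZ : ∀ᶠ m in atTop, ¬ IsPtP φ I' (x m)) :
    ∃ (ℓ : MvPolynomial (Fin (N + 1)) ℂ) (t : ℕ), ℓ.IsHomogeneous 1 ∧
      (∀ᶠ m in atTop, eval (x m) ℓ ≠ 0) ∧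
      ∀ j, IntOver B fun m => x (m + t) j / eval (x (m + t)) ℓ := by
  classical
  -- a linear form
  obtain ⟨c, hc⟩ := exists_linear (fun m => if x m = 0 then fun _ => 1 else x m) (by
    intro m
    by_cases h0 : x m = 0
    · simp only [if_pos h0]
      intro h1
      exact one_ne_zero (congrFun h1 0)
    · simp only [if_neg h0]
      exact h0)
  let ℓ : MvPolynomial (Fin (N + 1)) ℂ := ∑ j : Fin (N + 1), C (c ^ (j : ℕ)) * X j
  have hℓ : ℓ.IsHomogeneous 1 := by
    refine IsHomogeneous.sum _ _ _ fun j _ => ?_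
    have h2 := (isHomogeneous_C (Fin (N + 1)) (c ^ (j : ℕ))).mul (isHomogeneous_X ℂ j)
    rwa [zero_add] at h2
  have hℓe : ∀ v : Fin (N + 1) → ℂ, eval v ℓ = ∑ j : Fin (N + 1), c ^ (j : ℕ) * v j := by
    intro v
    simp only [ℓ, map_sum, map_mul, eval_C, eval_X]
  have hℓx : ∀ᶠ m in atTop, eval (x m) ℓ ≠ 0 := by
    filter_upwards [hne] with m hm
    have h1 := hc m
    simp only [if_neg hm] at h1
    rw [hℓe]
    exact h1
  let s : Set (MvPolynomial (Fin (N + 1)) ℂ) :=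
    {G | ∃ G0 ∈ I, (∃ d, G0.IsHomogeneous d) ∧ G = MvPolynomial.map φ G0}
  obtain ⟨t, ht⟩ := exists_rc hB hx hℓ hℓx (s := s)
    (by
      rintro _ ⟨G0, _, ⟨d, hd⟩, rfl⟩
      exact ⟨d, hd.map φ⟩)
    (by
      rintro _ ⟨G0, hG0, hd, rfl⟩
      filter_upwards [hX] with m hm
      rw [eval_map]
      exact hm G0 hG0 hd)
  refine ⟨ℓ, t, hℓ, hℓx, fun j => intOver_of hB (int_of_cf hB fun J hJ hJp => ?_)⟩
  have hdom : IsDomain ((ℕ → ℂ) ⧸ J) := Ideal.Quotient.isDomain J
  apply rel_of_cf hB hJ hJp (FractionRing ((ℕ → ℂ) ⧸ J))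
  by_contra hcon
  obtain ⟨m, ⟨p, h1, h2, h3⟩, h6⟩ :=
    ((ht J hJ hJp (FractionRing ((ℕ → ℂ) ⧸ J)) j hcon).and_eventually
      (eventually_shift hZ t)).exists
  apply h6
  rw [← h2]
  refine h p (fun u G hG hGf => ?_) h3 1
  have h4 := h1 _ ⟨G, hG, hGf, rfl⟩
  have h5 := congrArg (Polynomial.eval u) h4
  rw [Polynomial.eval_zero, eval_aeval, eval_map] at h5
  exact h5

/-- independent elements are not algebraic over the coefficients -/
theorem exists_transc {I : Ideal (ℕ → ℂ)} (hB : CoefField B) (hI : EZ ≤ I) {K : Type} [Field K]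
    [Algebra ((ℕ → ℂ) ⧸ I) K] [Algebra ℂ K] [IsScalarTower ℂ ((ℕ → ℂ) ⧸ I) K] {d : ℕ}
    (hd : TrLe B d) {w : ℕ} (hw : d < w) (z : Fin w → K) (hz : AlgebraicIndependent ℂ z) :
    ∃ i, ¬ IsAlgebraic (cf hB hI K) (z i) := by
  classical
  set E := cf hB hI K with hE
  by_contra hcon
  push Not at hcon
  have hcon' : ∀ i, IsAlgebraic E (z i) := hcon
  let F : IntermediateField E K := algebraicClosure E K
  have halg : Algebra.IsAlgebraic E F := algebraicClosure.isAlgebraic E K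
  have h0 : Algebra.trdeg E F = 0 := trdeg_eq_zero
  have hEF : FaithfulSMul E F :=
    (faithfulSMul_iff_algebraMap_injective E F).2 (algebraMap E F).injective
  have h1 := trdeg_add_eq ℂ E (A := F)
  rw [h0, add_zero] at h1
  have hmem : ∀ i, z i ∈ F := fun i => mem_algebraicClosure_iff.2 (hcon' i)
  have h2 : AlgebraicIndependent ℂ (fun i => (⟨z i, hmem i⟩ : F)) := by
    have h3 : AlgebraicIndependent ℂ (((F.val.restrictScalars ℂ) : F →ₐ[ℂ] K) ∘
        fun i => (⟨z i, hmem i⟩ : F)) := hz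
    exact AlgebraicIndependent.of_comp _ h3
  have h3 := h2.lift_cardinalMk_le_trdeg
  rw [← h1] at h3
  have h4 := trdeg_cf hB hI (K := K) hd
  have h5 : ((w : ℕ) : Cardinal) ≤ (d : ℕ) := by
    refine le_trans ?_ h4
    simpa using h3
  exact absurd (Nat.cast_le.1 h5) (by omega)

/-- integral sequences modulo a prime ideal -/
theorem IntOver.alg {I : Ideal (ℕ → ℂ)} (hB : CoefField B) (hI : EZ ≤ I) {K : Type} [Field K]
    [Algebra ((ℕ → ℂ) ⧸ I) K] [Algebra ℂ K] [IsScalarTower ℂ ((ℕ → ℂ) ⧸ I) K] {f : ℕ → ℂ}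
    (hf : IntOver B f) :
    IsAlgebraic (cf hB hI K) (algebraMap ((ℕ → ℂ) ⧸ I) K (mk' I f)) := by
  obtain ⟨e, b, he, hb, h⟩ := hf
  set a := algebraMap ((ℕ → ℂ) ⧸ I) K with ha
  let c : ℕ → cf hB hI K := fun k => ⟨a (mk' I (b k)), b k, hb k, rfl⟩
  let p : Polynomial (cf hB hI K) := Polynomial.X ^ e + ∑ k ∈ Finset.range e,
    Polynomial.C (c k) * Polynomial.X ^ k
  refine ⟨p, ?_, ?_⟩
  · intro h0
    have h1 := congrArg (fun q => Polynomial.coeff q e) h0
    simp only [p, Polynomial.coeff_add, Polynomial.coeff_X_pow, if_true,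
      Polynomial.finsetSum_coeff, Polynomial.coeff_C_mul_X_pow, Polynomial.coeff_zero] at h1
    rw [Finset.sum_eq_zero] at h1
    · simp at h1
    · intro k hk
      rw [if_neg]
      have := Finset.mem_range.1 hk
      omega
  · simp only [p, map_add, map_pow, Polynomial.aeval_X, map_sum, map_mul, Polynomial.aeval_C]
    have h2 : a (mk' I (f ^ e + ∑ k ∈ Finset.range e, b k * f ^ k)) = 0 := by
      have h3 : mk' I (f ^ e + ∑ k ∈ Finset.range e, b k * f ^ k) = 0 := by
        refine mk'_zero.2 (hI ?_)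
        rw [mem_EZ]
        filter_upwards [h] with m hm
        rw [Pi.add_apply, Finset.sum_apply]
        exact hm
      rw [h3, map_zero]
    rw [← h2, map_add, map_add, map_pow, map_pow, map_sum, map_sum]
    congr 1
    refine Finset.sum_congr rfl fun k _ => ?_
    rw [map_mul, map_mul, map_pow, map_pow]
    rfl

/-- **Closures of sequences of integral points.** -/
theorem form_of_int (hB : CoefField B) {d : ℕ} (hd : TrLe B d) {x : ℕ → Fin (N + 1) → ℂ}
    {ℓ : MvPolynomial (Fin (N + 1)) ℂ} {t : ℕ} (hℓx : ∀ᶠ m in atTop, eval (x m) ℓ ≠ 0)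
    (hint : ∀ j, IntOver B fun m => x (m + t) j / eval (x (m + t)) ℓ)
    (J : Fin (d + 1 + 1) → Fin (N + 1)) :
    ∃ H : MvPolynomial (Fin (d + 1 + 1)) ℂ, IsForm H ∧ H ≠ 0 ∧
      ∀ᶠ m in atTop, eval (fun i => x m (J i)) H = 0 := by
  classical
  by_contra hcon
  push Not at hcon
  let T : Submonoid (ℕ → ℂ) :=
    { carrier := {f | ∃ H : MvPolynomial (Fin (d + 1 + 1)) ℂ, IsForm H ∧ H ≠ 0 ∧
        f = fun m => eval (fun i => x (m + t) (J i)) H}
      mul_mem' := by
        rintro _ _ ⟨H, ⟨a, ha⟩, h0, rfl⟩ ⟨H', ⟨b, hb⟩, h0', rfl⟩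
        refine ⟨H * H', ⟨a + b, ha.mul hb⟩, mul_ne_zero h0 h0', ?_⟩
        funext m
        rw [map_mul]
        rfl
      one_mem' := ⟨1, ⟨0, isHomogeneous_one _ _⟩, one_ne_zero, by
        funext m
        rw [map_one]
        rfl⟩ }
  have hdisj : Disjoint (EZ : Set (ℕ → ℂ)) T := by
    rw [Set.disjoint_left]
    rintro f hf ⟨H, hH, h0, rfl⟩
    refine hcon H hH h0 ?_
    have h1 : ∀ᶠ m in atTop, eval (fun i => x (m + t) (J i)) H = 0 := hf
    obtain ⟨m0, hm0⟩ := eventually_atTop.1 h1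
    refine eventually_atTop.2 ⟨m0 + t, fun m hm => ?_⟩
    have h2 := hm0 (m - t) (by omega)
    rw [Nat.sub_add_cancel (by omega)] at h2
    exact not_not.2 h2
  obtain ⟨I, hIp, hI, hIT⟩ := Ideal.exists_le_prime_disjoint EZ T hdisj
  have hdom : IsDomain ((ℕ → ℂ) ⧸ I) := Ideal.Quotient.isDomain I
  let KR := FractionRing ((ℕ → ℂ) ⧸ I)
  let a : ((ℕ → ℂ) ⧸ I) →+* KR := algebraMap _ KR
  have hinj : Function.Injective a := IsFractionRing.injective _ KR
  let z : Fin (N + 1) → KR := fun j => a (mk' I fun m => x (m + t) j)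
  have hz : ∀ G : MvPolynomial (Fin (N + 1)) ℂ, W602.GT.val z G =
      a (mk' I fun m => eval (x (m + t)) G) := by
    intro G
    have h1 := MvPolynomial.comp_aeval_apply (f := fun j => (fun m => x (m + t) j : ℕ → ℂ))
      ((IsScalarTower.toAlgHom ℂ ((ℕ → ℂ) ⧸ I) KR).comp (mk' I)) G
    have h2 : (aeval (fun j => (fun m => x (m + t) j : ℕ → ℂ)) G : ℕ → ℂ) =
        fun m => eval (x (m + t)) G := by
      funext m
      have h7 := MvPolynomial.comp_aeval_apply (f := fun j => (fun m => x (m + t) j : ℕ → ℂ))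
        (Pi.evalAlgHom ℂ (fun _ : ℕ => ℂ) m) G
      have h8 : (aeval (fun j => (fun m => x (m + t) j : ℕ → ℂ)) G : ℕ → ℂ) m =
        aeval (fun i => x (m + t) i) G := h7
      rw [h8, MvPolynomial.aeval_eq_eval]
    rw [← h2]
    exact h1.symm
  have hren : ∀ H : MvPolynomial (Fin (d + 1 + 1)) ℂ,
      aeval (fun i => z (J i)) H = W602.GT.val z (rename J H) := by
    intro H
    unfold W602.GT.val
    rw [aeval_rename]
    rfl
  obtain ⟨hz0, hindz⟩ := indep_ratio (fun i => z (J i)) (fun H hH h0 => by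
    rw [hren, hz, Ne, map_eq_zero_iff a hinj, mk'_zero]
    intro h1
    refine Set.disjoint_left.1 hIT h1 ⟨H, hH, h0, ?_⟩
    funext m
    rw [eval_rename]
    rfl)
  obtain ⟨i, hi⟩ := exists_transc hB hI (K := KR) hd (Nat.lt_succ_self d) _ hindz
  apply hi
  set E := cf hB hI KR with hE
  have halg : ∀ j, IsAlgebraic E (a (mk' I fun m => x (m + t) j / eval (x (m + t)) ℓ)) :=
    fun j => (hint j).alg hB hI
  have hL : a (mk' I fun m => eval (x (m + t)) ℓ) *
      a (mk' I fun m => (eval (x (m + t)) ℓ)⁻¹) = 1 := by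
    rw [← map_mul, ← map_mul, ← map_one a, ← map_one (mk' I)]
    congr 1
    rw [← sub_eq_zero, ← map_sub]
    refine mk'_zero.2 (hI ?_)
    rw [mem_EZ]
    filter_upwards [eventually_shift hℓx t] with m hm
    rw [Pi.sub_apply, Pi.mul_apply, Pi.one_apply, mul_inv_cancel₀ hm, sub_self]
  have hL0 : a (mk' I fun m => (eval (x (m + t)) ℓ)⁻¹) ≠ 0 := by
    intro h0
    rw [h0, mul_zero] at hL
    exact zero_ne_one hL
  have hdiv : ∀ j, a (mk' I fun m => x (m + t) j / eval (x (m + t)) ℓ) =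
      z j * a (mk' I fun m => (eval (x (m + t)) ℓ)⁻¹) := by
    intro j
    change _ = a (mk' I fun m => x (m + t) j) * _
    rw [← map_mul, ← map_mul]
    rfl
  have h1 : z (J i.succ) / z (J 0) =
      a (mk' I fun m => x (m + t) (J i.succ) / eval (x (m + t)) ℓ) *
        (a (mk' I fun m => x (m + t) (J 0) / eval (x (m + t)) ℓ))⁻¹ := by
    rw [hdiv, hdiv, ← div_eq_mul_inv, mul_div_mul_right _ _ hL0]
  change IsAlgebraic E (z (J i.succ) / z (J 0))
  rw [h1]
  exact (halg _).mul (halg _).inv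

end Pool.Agent.Q13.DS
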