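import Mathlib

set_option autoImplicit false

/-!
Descent of forms to a subfield.
-/

namespace Pool.Agent.Q13.DS

open MvPolynomial

variable {F E : Type} [Field F] [Field E] [Algebra F E] {n : ℕ}

/-- the polynomial obtained by applying a linear functional to the coefficients -/
noncomputable def coefMap (c : E →ₗ[F] F) (H : MvPolynomial (Fin n) E) : MvPolynomial (Fin n) F :=
  ∑ e ∈ H.support, monomial e (c (H.coeff e))

lemma eval_coefMap (c : E →ₗ[F] F) (H : MvPolynomial (Fin n) E) (x : Fin n → F) :
    eval x (coefMap c H) = c (eval (fun i => algebraMap F E (x i)) H) := by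
  rw [coefMap, map_sum, eval_eq, map_sum]
  refine Finset.sum_congr rfl fun e _ => ?_
  rw [eval_monomial, Finsupp.prod]
  have h1 : (∏ i ∈ e.support, (algebraMap F E (x i)) ^ e i) =
      algebraMap F E (∏ i ∈ e.support, x i ^ e i) := by
    rw [map_prod]
    exact Finset.prod_congr rfl fun i _ => by rw [map_pow]
  rw [h1, mul_comm (coeff e H), ← Algebra.smul_def, map_smul, smul_eq_mul, mul_comm]

lemma coefMap_homog (c : E →ₗ[F] F) {H : MvPolynomial (Fin n) E} {d : ℕ} (hH : H.IsHomogeneous d) :
    (coefMap c H).IsHomogeneous d := by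
  refine IsHomogeneous.sum _ _ _ fun e he => ?_
  refine isHomogeneous_monomial _ ?_
  have h1 := hH (mem_support_iff.1 he)
  rwa [Finsupp.degree_eq_weight_one]

theorem descend (p : Ideal (MvPolynomial (Fin n) F)) (H : MvPolynomial (Fin n) E)
    (hH : H ∉ p.map (MvPolynomial.map (algebraMap F E))) : ∃ c : E →ₗ[F] F, coefMap c H ∉ p := by
  classical
  by_contra hcon
  push Not at hcon
  apply hH
  set b := Module.Basis.ofVectorSpace F E
  set S := H.support.biUnion fun e => (b.repr (H.coeff e)).support with hS
  have h1 : H = ∑ i ∈ S, C (b i) * MvPolynomial.map (algebraMap F E) (coefMap (b.coord i) H) := by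
    have h2 : ∀ i, C (b i) * MvPolynomial.map (algebraMap F E) (coefMap (b.coord i) H) =
        ∑ e ∈ H.support, monomial e (b i * algebraMap F E (b.repr (H.coeff e) i)) := by
      intro i
      rw [coefMap, map_sum, Finset.mul_sum]
      refine Finset.sum_congr rfl fun e _ => ?_
      rw [map_monomial, C_mul_monomial]
      rfl
    simp only [h2]
    rw [Finset.sum_comm]
    conv_lhs => rw [← support_sum_monomial_coeff H]
    refine Finset.sum_congr rfl fun e he => ?_
    rw [← map_sum]
    congr 1
    have h3 := b.linearCombination_repr (H.coeff e)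
    rw [Finsupp.linearCombination_apply, Finsupp.sum] at h3
    have h4 : ∀ i, b i * algebraMap F E (b.repr (H.coeff e) i) = (b.repr (H.coeff e) i) • b i := by
      intro i
      rw [Algebra.smul_def, mul_comm]
    refine h3.symm.trans ?_
    refine (Finset.sum_subset ?_ ?_).trans (Finset.sum_congr rfl fun i _ => (h4 i).symm)
    · intro i hi
      exact Finset.mem_biUnion.2 ⟨e, he, hi⟩
    · intro i _ hi
      rw [Finsupp.notMem_support_iff.1 hi, zero_smul]
  rw [h1]
  refine Ideal.sum_mem _ fun i _ => Ideal.mul_mem_left _ _ ?_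
  exact Ideal.mem_map_of_mem _ (hcon _)

end Pool.Agent.Q13.DS
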