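import Pool.Agent.Q13.DS.Core
import Pool.Agent.Q13.DS.Desc
import Pool.Agent.TH143.DE.Rat
import Pool.Agent.W602.GT.KDefs

/-!
Sequences of points given by linear recurrences over difference fields: log Kodaira dimension.
-/

set_option autoImplicit false

namespace Pool.Agent.Q13.DS

open MvPolynomial Filter FF Pool.Agent.TH143 Pool.Agent.TH143.GT Pool.Agent.W602.GT
  Pool.Agent.W603.BP Pool.Agent.W603.GR Pool.Agent.W603.BPR Pool.Agent.TH143.DE

variable {N : ℕ}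

variable {B : Subalgebra ℂ (ℕ → ℂ)} {w : ℕ} {p : Ideal (MvPolynomial (Fin (N + 1)) ℂ)}
  {Q : MvPolynomial (Fin (N + 1)) ℂ} {q : ℕ}

/-- the points are not dense if the log Kodaira dimension is large -/
theorem not_tailDense (hB : CoefField B) {d : ℕ} (hd : TrLe B d) {K : Type} [Field K] [Algebra ℂ K]
    {y : Fin (N + 1) → K} (hQe : Q.IsHomogeneous q)
    (hy : FunField p Q K w y) {x : ℕ → Fin (N + 1) → ℂ}
    (hx : ∀ j, LinRec B (fun m => x m j)) (hX : ∀ᶠ m in atTop, ∀ H ∈ p, eval (x m) H = 0)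
    (hQ : Hyper B Q x) {κ : ℕ} (hκ : d < κ) (h : KodGe ℂ K w (OffQ Q q y) κ) :
    ¬ TailDense p x := by
  intro hdense
  obtain ⟨e, he, ω, hω, D, hD, hind⟩ := h
  obtain ⟨i, hi⟩ := dense_dir hB hd hQe hy hx hX hQ hdense hκ _ hind
  apply hi
  intro M _ _ m W l hm hF
  exact (hF.main hy.sub.dim hm hy.sub.ne hy.sub.gen hQe).2.1 e he (ω 0) (ω i.succ) (hω 0) (hω _) D

/-- nonzero linear forms which vanish at a given point -/
lemma exists_lin {F : Type} [Field F] {n : ℕ} (v : Fin (n + 1 + 1) → F) :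
    ∃ ℓ : MvPolynomial (Fin (n + 1 + 1)) F, ℓ.IsHomogeneous 1 ∧ ℓ ≠ 0 ∧ eval v ℓ = 0 := by
  classical
  by_cases h0 : v 0 = 0
  · exact ⟨X 0, isHomogeneous_X _ _, X_ne_zero 0, by rw [eval_X, h0]⟩
  · refine ⟨C (v 0) * X 1 - C (v 1) * X 0, ?_, ?_, ?_⟩
    · have h2 := (isHomogeneous_C (Fin (n + 1 + 1)) (v 0)).mul (isHomogeneous_X F 1)
      have h3 := (isHomogeneous_C (Fin (n + 1 + 1)) (v 1)).mul (isHomogeneous_X F 0)
      rw [zero_add] at h2 h3
      exact h2.sub h3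
    · intro h
      have h1 := congrArg (eval (Pi.single 1 1)) h
      rw [map_sub, map_mul, map_mul, eval_C, eval_C, eval_X, eval_X, map_zero,
        Pi.single_eq_same, Pi.single_eq_of_ne (by simp), mul_one, mul_zero, sub_zero] at h1
      exact h0 h1
    · rw [map_sub, map_mul, map_mul, eval_C, eval_C, eval_X, eval_X]
      ring

/-- finitely many points do not matter -/
lemma tail_form {F : Type} [Field F] {n : ℕ} (u : ℕ → Fin (n + 1 + 1) → F)
    {H : MvPolynomial (Fin (n + 1 + 1)) F} (hH : IsForm H) (h0 : H ≠ 0)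
    (hz : ∀ᶠ m in atTop, eval (u m) H = 0) :
    ∃ H' : MvPolynomial (Fin (n + 1 + 1)) F, IsForm H' ∧ H' ≠ 0 ∧ ∀ m, eval (u m) H' = 0 := by
  classical
  choose ℓ hℓ hℓ0 hℓx using fun m => exists_lin (u m)
  obtain ⟨m0, hm0⟩ := eventually_atTop.1 hz
  obtain ⟨e, he⟩ := hH
  refine ⟨H * ∏ m ∈ Finset.range m0, ℓ m, ⟨e + ∑ m ∈ Finset.range m0, 1, he.mul
      (IsHomogeneous.prod _ _ _ fun m _ => hℓ m)⟩,
    mul_ne_zero h0 (Finset.prod_ne_zero_iff.2 fun m _ => hℓ0 m), fun m => ?_⟩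
  rw [map_mul, map_prod]
  by_cases hm : m0 ≤ m
  · rw [hm0 m hm, zero_mul]
  · rw [Finset.prod_eq_zero (Finset.mem_range.2 (not_le.1 hm)) (hℓx m), mul_zero]

/-! ### Subfields -/

section descent

variable {F : Type} [Field F] [Algebra F ℂ]

/-- the complex point -/
def cpt (x : ℕ → Fin (N + 1) → F) (m : ℕ) (j : Fin (N + 1)) : ℂ := algebraMap F ℂ (x m j)

theorem eval_cpt (x : ℕ → Fin (N + 1) → F) (m : ℕ) (G : MvPolynomial (Fin (N + 1)) F) :
    eval (cpt x m) (MvPolynomial.map (algebraMap F ℂ) G) = algebraMap F ℂ (eval (x m) G) := by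
  rw [eval_map]
  exact (eval₂_comp_left (algebraMap F ℂ) (RingHom.id F) (x m) G).symm

/-- forms over `ℂ` with given zeros among the points over `F` -/
theorem seqDense_of {p : Ideal (MvPolynomial (Fin (N + 1)) F)} {x : ℕ → Fin (N + 1) → F}
    (h : ∀ G : MvPolynomial (Fin (N + 1)) F, IsForm G → (∀ m, eval (x m) G = 0) → G ∈ p) :
    SeqDense (p.map (MvPolynomial.map (algebraMap F ℂ))) (cpt x) := by
  rintro H ⟨e, hH⟩ hz
  by_contra hcon
  obtain ⟨c, hc⟩ := descend p H hcon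
  refine hc (h _ ⟨e, coefMap_homog c hH⟩ fun m => ?_)
  rw [eval_coefMap]
  have h1 := hz m
  change c (eval (cpt x m) H) = 0
  rw [h1, map_zero]

theorem form_descend {n : ℕ} {u : ℕ → Fin (n + 1) → F} {H : MvPolynomial (Fin (n + 1)) ℂ} (hH : IsForm H)
    (h0 : H ≠ 0) (hz : ∀ m, eval (fun i => algebraMap F ℂ (u m i)) H = 0) :
    ∃ H' : MvPolynomial (Fin (n + 1)) F, IsForm H' ∧ H' ≠ 0 ∧ ∀ m, eval (u m) H' = 0 := by
  obtain ⟨e, he⟩ := hH
  obtain ⟨c, hc⟩ := descend (⊥ : Ideal (MvPolynomial (Fin (n + 1)) F)) H (by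
    rw [Ideal.map_bot]
    exact h0)
  refine ⟨_, ⟨e, coefMap_homog c he⟩, hc, fun m => ?_⟩
  rw [eval_coefMap, hz, map_zero]

end descent

end Pool.Agent.Q13.DS
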