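import Pool.Agent.TH143.DE.Gen

/-!
Sequences of points given by linear recurrences over difference fields: the directions of the
families of rational curves, and the closure of the sequence.
-/

set_option autoImplicit false

namespace Pool.Agent.Q13.DS

open MvPolynomial Filter Pool.Agent.TH143 Pool.Agent.TH143.GT Pool.Agent.W602.GT
  Pool.Agent.W603.BP Pool.Agent.W603.GR Pool.Agent.W603.BPR Pool.Agent.TH143.DE

variable {N : ℕ}

/-! ### Homogenization -/

/-- the form of degree `e` given by a polynomial -/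
noncomputable def hg {v : ℕ} (e : ℕ) (F : MvPolynomial (Fin v) ℂ) : MvPolynomial (Fin (v + 1)) ℂ :=
  ∑ u ∈ F.support, monomial (Finsupp.cons (e - u.degree) u) (F.coeff u)

lemma hg_homog {v : ℕ} {e : ℕ} {F : MvPolynomial (Fin v) ℂ} (he : F.totalDegree ≤ e) :
    (hg e F).IsHomogeneous e := by
  refine IsHomogeneous.sum _ _ _ fun u hu => ?_
  refine isHomogeneous_monomial _ ?_
  have h1 : u.degree ≤ e := by
    refine le_trans ?_ he
    rw [Finsupp.degree_eq_sum]
    have h2 := le_totalDegree hu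
    rwa [Finsupp.sum_fintype _ _ fun _ => rfl] at h2
  rw [Finsupp.degree_eq_sum, Fin.sum_univ_succ, Finsupp.cons_zero]
  simp only [Finsupp.cons_succ]
  rw [← Finsupp.degree_eq_sum]
  omega

lemma aeval_hg {K : Type} [Field K] [Algebra ℂ K] {v : ℕ} {e : ℕ} {F : MvPolynomial (Fin v) ℂ}
    (he : F.totalDegree ≤ e) (u : Fin (v + 1) → K) (h0 : u 0 ≠ 0) :
    aeval u (hg e F) = u 0 ^ e * aeval (fun i : Fin v => u i.succ / u 0) F := by
  rw [hg, map_sum, aeval_def, eval₂_eq', Finset.mul_sum]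
  refine Finset.sum_congr rfl fun t ht => ?_
  have h1 : t.degree ≤ e := by
    refine le_trans ?_ he
    rw [Finsupp.degree_eq_sum]
    have h2 := le_totalDegree ht
    rwa [Finsupp.sum_fintype _ _ fun _ => rfl] at h2
  rw [aeval_monomial, Finsupp.prod_fintype _ _ fun _ => pow_zero _, Fin.prod_univ_succ,
    Finsupp.cons_zero]
  simp only [Finsupp.cons_succ, div_pow]
  rw [Finset.prod_div_distrib, Finset.prod_pow_eq_pow_sum, ← Finsupp.degree_eq_sum]
  have h3 : u 0 ^ e = u 0 ^ (e - t.degree) * u 0 ^ t.degree := by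
    rw [← pow_add, Nat.sub_add_cancel h1]
  have h4 : u 0 ^ t.degree ≠ 0 := pow_ne_zero _ h0
  rw [h3]
  field_simp

lemma hg_ne {v : ℕ} {e : ℕ} {F : MvPolynomial (Fin v) ℂ} (hF : F ≠ 0) : hg e F ≠ 0 := by
  classical
  obtain ⟨t, ht⟩ := ne_zero_iff.1 hF
  intro h0
  apply ht
  have h1 := congrArg (coeff (Finsupp.cons (e - t.degree) t)) h0
  rw [coeff_zero, hg, coeff_sum, Finset.sum_eq_single t] at h1
  · rwa [coeff_monomial, if_pos rfl] at h1
  · intro u _ hu
    rw [coeff_monomial, if_neg]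
    intro h2
    apply hu
    have h3 := congrArg Finsupp.tail h2
    rwa [Finsupp.tail_cons, Finsupp.tail_cons] at h3
  · intro h2
    rw [coeff_monomial, if_pos rfl]
    exact notMem_support_iff.1 h2

/-- ratios of elements without homogeneous relations are algebraically independent -/
theorem indep_ratio {K : Type} [Field K] [Algebra ℂ K] {v : ℕ} (u : Fin (v + 1) → K)
    (h : ∀ H : MvPolynomial (Fin (v + 1)) ℂ, IsForm H → H ≠ 0 → aeval u H ≠ 0) :
    u 0 ≠ 0 ∧ AlgebraicIndependent ℂ (fun i : Fin v => u i.succ / u 0) := by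
  have h0 : u 0 ≠ 0 := by
    have h1 := h (X 0) ⟨1, isHomogeneous_X _ _⟩ (X_ne_zero 0)
    rwa [aeval_X] at h1
  refine ⟨h0, ?_⟩
  rw [algebraicIndependent_iff]
  intro F hF
  by_contra hne
  refine h (hg F.totalDegree F) ⟨_, hg_homog le_rfl⟩ (hg_ne hne) ?_
  rw [aeval_hg le_rfl u h0, hF, mul_zero]

/-! ### The subvariety of a point -/

/-- the closure of a point -/
theorem sub_point {F : Type} [Field F] [Algebra ℂ F] (u : Fin (N + 1) → F) {j0 : Fin (N + 1)}
    (h0 : u j0 ≠ 0) :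
    ∃ (K : Type) (_ : Field K) (_ : Algebra ℂ K) (w : ℕ) (y : Fin (N + 1) → K), y j0 = 1 ∧
      coords ℂ y = ⊤ ∧ Algebra.trdeg ℂ K = w ∧
      (∀ G : MvPolynomial (Fin (N + 1)) ℂ, IsForm G →
        (W602.GT.val y G = 0 ↔ W602.GT.val u G = 0)) := by
  classical
  let y' : Fin (N + 1) → F := fun j => u j / u j0
  have hy'0 : y' j0 = 1 := div_self h0
  have hmem : ∀ j, y' j ∈ coords ℂ y' := by
    intro j
    apply IntermediateField.subset_adjoin
    refine ⟨j, j0, by rw [hy'0]; exact one_ne_zero, ?_⟩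
    rw [hy'0, div_one]
  let y : Fin (N + 1) → coords ℂ y' := fun j => ⟨y' j, hmem j⟩
  have hy0 : y j0 = 1 := Subtype.ext hy'0
  have hval : ∀ G : MvPolynomial (Fin (N + 1)) ℂ, ((W602.GT.val y G : coords ℂ y') : F) =
      W602.GT.val y' G := by
    intro G
    have h4 := MvPolynomial.comp_aeval_apply (f := y) (coords ℂ y').val G
    exact h4
  have hgen : coords ℂ y = ⊤ := by
    have h1 : (coords ℂ y).map (coords ℂ y').val = coords ℂ y' := by
      unfold coords
      rw [IntermediateField.adjoin_map]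
      congr 1
      ext z
      constructor
      · rintro ⟨_, ⟨i, j, hj, rfl⟩, rfl⟩
        refine ⟨i, j, fun h => hj (Subtype.ext h), ?_⟩
        exact map_div₀ (coords ℂ y').val (y i) (y j)
      · rintro ⟨i, j, hj, rfl⟩
        exact ⟨y i / y j, ⟨i, j, fun h => hj (congrArg Subtype.val h), rfl⟩, rfl⟩
    apply IntermediateField.map_injective (coords ℂ y').val
    rw [h1]
    ext z
    simp only [IntermediateField.mem_map, IntermediateField.mem_top, true_and]
    constructor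
    · intro hz
      exact ⟨⟨z, hz⟩, rfl⟩
    · rintro ⟨x, rfl⟩
      exact x.2
  have hess : Algebra.EssFiniteType ℂ (coords ℂ y') := ess_of_coords hgen
  obtain ⟨w, hw⟩ := Cardinal.lt_aleph0.1 (trdeg_lt_aleph0 ℂ (coords ℂ y'))
  refine ⟨coords ℂ y', inferInstance, inferInstance, w, y, hy0, hgen, hw, ?_⟩
  rintro G ⟨d, hG⟩
  have h1 : W602.GT.val y G = 0 ↔ W602.GT.val y' G = 0 := by
    rw [← hval G]
    exact (map_eq_zero_iff (coords ℂ y').val (coords ℂ y').val.injective).symm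
  have h2 : u j0 ^ d * W602.GT.val y' G = W602.GT.val u G := by
    refine (Pool.Agent.W603.PV.aeval_scale hG y' (u j0)).symm.trans ?_
    unfold W602.GT.val
    congr 2
    funext j
    change u j0 * (u j / u j0) = u j
    rw [mul_div_cancel₀ _ h0]
  rw [h1, ← h2, mul_eq_zero, or_iff_right (pow_ne_zero _ h0)]

/-! ### The directions -/

variable {B : Subalgebra ℂ (ℕ → ℂ)} {w : ℕ} {p : Ideal (MvPolynomial (Fin (N + 1)) ℂ)}
  {Q : MvPolynomial (Fin (N + 1)) ℂ} {q : ℕ}

/-- **The family of rational curves** through the points of a dense sequence of points given by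
linear recurrences moves one of any `d + 1` independent functions. -/
theorem dense_dir (hB : CoefField B) {d : ℕ} (hd : TrLe B d) {K : Type} [Field K] [Algebra ℂ K]
    {y : Fin (N + 1) → K} (hQe : Q.IsHomogeneous q)
    (hy : FunField p Q K w y) {x : ℕ → Fin (N + 1) → ℂ}
    (hx : ∀ j, LinRec B (fun m => x m j)) (hX : ∀ᶠ m in atTop, ∀ H ∈ p, eval (x m) H = 0)
    (hQ : Hyper B Q x) (hdense : TailDense p x) {v : ℕ} (hv : d < v) (y0 : Fin v → K)
    (hy0 : AlgebraicIndependent ℂ y0) : ∃ i, ¬ AllFlat Q y (y0 i) := by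
  classical
  obtain ⟨s, n, A, U, Φ, hU, hdet, hΦ⟩ := exists_sys hB (fun j m => x m j) hx
  have hpt : ∀ᶠ m in atTop, x (m + s) = pt U Φ m := by
    filter_upwards [hΦ] with m hm
    funext j
    exact hm j
  -- forms along the sequence
  have hform : ∀ H : MvPolynomial (Fin (N + 1)) ℂ, (∀ᶠ m in atTop, eval (pt U Φ m) H = 0) →
      ∀ᶠ m in atTop, eval (x m) H = 0 := by
    intro H hH
    obtain ⟨m0, hm0⟩ := eventually_atTop.1 (hH.and hpt)
    refine eventually_atTop.2 ⟨m0 + s, fun m hm => ?_⟩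
    obtain ⟨h1, h2⟩ := hm0 (m - s) (by omega)
    rw [← h2, Nat.sub_add_cancel (by omega)] at h1
    exact h1
  have hmem : ∀ H ∈ p, ∀ᶠ m in atTop, eval (pt U Φ m) H = 0 := by
    intro H hH
    filter_upwards [eventually_shift hX s, hpt] with m h1 h2
    rw [← h2]
    exact h1 H hH
  have hval : ∀ H : MvPolynomial (Fin (N + 1)) ℂ, IsForm H →
      (W602.GT.val y H ≠ 0 → ¬ ∀ᶠ m in atTop, eval (pt U Φ m) H = 0) := by
    intro H hH h0 hcon
    exact h0 (hy.sub.mem H (hdense H hH (hform H hcon)))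
  -- the prime ideal
  let T : Submonoid (ℕ → ℂ) :=
    { carrier := {f | ∃ H : MvPolynomial (Fin (N + 1)) ℂ, IsForm H ∧ W602.GT.val y H ≠ 0 ∧
        f = fun m => eval (pt U Φ m) H}
      mul_mem' := by
        rintro _ _ ⟨H, ⟨a, ha⟩, h0, rfl⟩ ⟨H', ⟨b, hb⟩, h0', rfl⟩
        refine ⟨H * H', ⟨a + b, ha.mul hb⟩, ?_, ?_⟩
        · rw [val_mul']
          exact mul_ne_zero h0 h0'
        · funext m
          rw [map_mul]
          rfl
      one_mem' := ⟨1, ⟨0, isHomogeneous_one _ _⟩, by rw [val_one]; exact one_ne_zero, by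
        funext m
        rw [map_one]
        rfl⟩ }
  have hdisj : Disjoint (EZ : Set (ℕ → ℂ)) T := by
    rw [Set.disjoint_left]
    rintro f hf ⟨H, hH, h0, rfl⟩
    exact hval H hH h0 hf
  obtain ⟨I, hIp, hI, hIT⟩ := Ideal.exists_le_prime_disjoint EZ T hdisj
  have hdom : IsDomain ((ℕ → ℂ) ⧸ I) := Ideal.Quotient.isDomain I
  let KR := FractionRing ((ℕ → ℂ) ⧸ I)
  let a : ((ℕ → ℂ) ⧸ I) →+* KR := algebraMap _ KR
  have hinj : Function.Injective a := IsFractionRing.injective _ KR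
  let z : Fin (N + 1) → KR := fun j => a (mk' I fun m => pt U Φ m j)
  have hz : ∀ G : MvPolynomial (Fin (N + 1)) ℂ, W602.GT.val z G =
      a (mk' I fun m => eval (pt U Φ m) G) := by
    intro G
    have h1 := MvPolynomial.comp_aeval_apply (f := fun j => (fun m => pt U Φ m j : ℕ → ℂ))
      ((IsScalarTower.toAlgHom ℂ ((ℕ → ℂ) ⧸ I) KR).comp (mk' I)) G
    have h2 : (aeval (fun j => (fun m => pt U Φ m j : ℕ → ℂ)) G : ℕ → ℂ) =
        fun m => eval (pt U Φ m) G := by
      funext m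
      have h7 := MvPolynomial.comp_aeval_apply (f := fun j => (fun m => pt U Φ m j : ℕ → ℂ))
        (Pi.evalAlgHom ℂ (fun _ : ℕ => ℂ) m) G
      have h8 : (aeval (fun j => (fun m => pt U Φ m j : ℕ → ℂ)) G : ℕ → ℂ) m =
        aeval (fun i => pt U Φ m i) G := h7
      rw [h8, MvPolynomial.aeval_eq_eval]
    rw [← h2]
    exact h1.symm
  have hzero : ∀ G : MvPolynomial (Fin (N + 1)) ℂ, IsForm G →
      (W602.GT.val y G = 0 ↔ (fun m => eval (pt U Φ m) G) ∈ I) := by
    intro G hG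
    constructor
    · intro h0
      exact hI (hmem G (hy.mem G hG h0))
    · intro h0
      by_contra h1
      exact Set.disjoint_left.1 hIT h0 ⟨G, hG, h1, rfl⟩
  have hyz : ∀ G : MvPolynomial (Fin (N + 1)) ℂ, IsForm G →
      (W602.GT.val y G = 0 ↔ W602.GT.val z G = 0) := by
    intro G hG
    rw [hzero G hG, hz, map_eq_zero_iff a hinj, mk'_zero]
  obtain ⟨i0, hi0⟩ := Function.ne_iff.1 hy.sub.ne
  have hi0' : y i0 ≠ 0 := hi0
  have hzi : z i0 ≠ 0 := by
    intro h0
    apply hi0'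
    have h1 := (hyz (X i0) ⟨1, isHomogeneous_X _ _⟩).2 (by
      unfold W602.GT.val
      rw [aeval_X]
      exact h0)
    rwa [val_X] at h1
  obtain ⟨φ, hφ⟩ := exists_embedding hi0' hzi hy.sub.gen hyz
  have hφv : ∀ G : MvPolynomial (Fin (N + 1)) ℂ, φ (aeval (fun j => y j / y i0) G) =
      aeval (fun j => z j / z i0) G := by
    intro G
    have h2 := MvPolynomial.comp_aeval_apply (f := fun j => y j / y i0) φ G
    rw [h2]
    congr 2
    funext j
    exact hφ j
  have hφr : ∀ (d : ℕ) (g1 g0 : MvPolynomial (Fin (N + 1)) ℂ), g1.IsHomogeneous d →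
      g0.IsHomogeneous d → W602.GT.val y g0 ≠ 0 →
      φ (W602.GT.val y g1 / W602.GT.val y g0) = W602.GT.val z g1 / W602.GT.val z g0 := by
    intro d g1 g0 h1 h0 hn
    have hyd : y i0 ^ d ≠ 0 := pow_ne_zero _ hi0'
    have hzd : z i0 ^ d ≠ 0 := pow_ne_zero _ hzi
    rw [val_scale hi0' h1, val_scale hi0' h0, mul_div_mul_left _ _ hyd, map_div₀, hφv, hφv,
      val_scale hzi h1, val_scale hzi h0, mul_div_mul_left _ _ hzd]
  have hind : AlgebraicIndependent ℂ (fun i => φ (y0 i)) :=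
    AlgebraicIndependent.map' hy0 (f := φ) φ.injective
  obtain ⟨D, i, hadd, hmul, hDB, hDi⟩ := exists_der_cf hB hI (K := KR) hd hv _ hind
  obtain ⟨e, g1, g0, hg1, hg0, hn, hr⟩ := exists_frac hy.sub.gen (y0 i)
  have hzn : W602.GT.val z g0 ≠ 0 := fun h => hn ((hyz g0 ⟨e, hg0⟩).2 h)
  have hD1 : D (W602.GT.val z g1 / W602.GT.val z g0) = 1 := by
    rw [← hφr e g1 g0 hg1 hg0 hn, ← hr]
    exact hDi
  have hDG : D (W602.GT.val z g1) * W602.GT.val z g0 -
      W602.GT.val z g1 * D (W602.GT.val z g0) ≠ 0 := by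
    have h1 : W602.GT.val z g1 = (W602.GT.val z g1 / W602.GT.val z g0) * W602.GT.val z g0 :=
      (div_mul_cancel₀ _ hzn).symm
    have h2 : D (W602.GT.val z g1) = (W602.GT.val z g1 / W602.GT.val z g0) *
        D (W602.GT.val z g0) + W602.GT.val z g0 := by
      conv_lhs => rw [h1]
      rw [hmul, hD1, mul_one]
    have h3 : D (W602.GT.val z g1) * W602.GT.val z g0 -
        W602.GT.val z g1 * D (W602.GT.val z g0) = W602.GT.val z g0 ^ 2 := by
      rw [h2]
      linear_combination (-D (W602.GT.val z g0)) * h1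
    rw [h3]
    exact pow_ne_zero _ hzn
  have hQ0 : ∀ᶠ m in atTop, eval (pt U Φ m) Q ≠ 0 := by
    filter_upwards [eventually_shift hQ.1 s, hpt] with m h1 h2
    rwa [← h2]
  obtain ⟨b, hbB, hb⟩ := hQ.2
  obtain ⟨M, i1, i2, m, hm, W, hW1, hW2, ⟨c, l, hc, hcQ⟩, hN⟩ := fam_of_der hB A U hU hdet hI D
    hadd hmul hDB Φ g0 g1 hg0 hg1 (by rw [hz, hz] at hDG; exact hDG) Q hQe hQ0
    ⟨_, hB.toCoefRing.shift' hbB s⟩ (by
      filter_upwards [eventually_shift hb s, hpt, eventually_shift hpt 1] with m h1 h2 h3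
      rw [← h2, ← h3]
      have h4 : m + 1 + s = m + s + 1 := by ring
      rw [h4]
      exact h1)
  refine ⟨i, fun hall => hN ?_⟩
  have hF : Fam y Q W l := by
    refine ⟨fun G hG => ⟨fun h0 => ?_, fun h0 => ?_⟩, c, hc, hcQ⟩
    · exact hW1 G hG (hmem G (hy.mem G hG h0))
    · exact (hzero G hG).2 (hW2 G h0)
  exact hall M m W l hm hF e g1 g0 hg1 hg0 hn hr

/-- **The closure of the sequence.** If a projection of the sequence to the space of dimension
`d + 1` is dense, then the closure of the sequence contains a subvariety of dimension greater than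
`d` with a family of rational curves. -/
theorem closure_dir (hB : CoefField B) {d : ℕ} (hd : TrLe B d) (hQe : Q.IsHomogeneous q)
    {x : ℕ → Fin (N + 1) → ℂ} (hx : ∀ j, LinRec B (fun m => x m j)) (hQ : Hyper B Q x)
    (J : Fin (d + 1 + 1) → Fin (N + 1))
    (hJ : ∀ H : MvPolynomial (Fin (d + 1 + 1)) ℂ, IsForm H → H ≠ 0 →
      ¬ ∀ᶠ m in atTop, eval (fun i => x m (J i)) H = 0) :
    ∃ (K : Type) (_ : Field K) (_ : Algebra ℂ K) (v : ℕ) (y : Fin (N + 1) → K), y ≠ 0 ∧
      coords ℂ y = ⊤ ∧ Algebra.trdeg ℂ K = v ∧ d < v ∧ W602.GT.val y Q ≠ 0 ∧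
      (∀ G : MvPolynomial (Fin (N + 1)) ℂ, IsForm G → (∀ᶠ m in atTop, eval (x m) G = 0) →
        W602.GT.val y G = 0) ∧ ∃ r : K, ¬ AllFlat Q y r := by
  classical
  obtain ⟨s, n, A, U, Φ, hU, hdet, hΦ⟩ := exists_sys hB (fun j m => x m j) hx
  have hpt : ∀ᶠ m in atTop, x (m + s) = pt U Φ m := by
    filter_upwards [hΦ] with m hm
    funext j
    exact hm j
  have hform : ∀ H : MvPolynomial (Fin (d + 1 + 1)) ℂ,
      (∀ᶠ m in atTop, eval (fun i => pt U Φ m (J i)) H = 0) →
      ∀ᶠ m in atTop, eval (fun i => x m (J i)) H = 0 := by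
    intro H hH
    obtain ⟨m0, hm0⟩ := eventually_atTop.1 (hH.and hpt)
    refine eventually_atTop.2 ⟨m0 + s, fun m hm => ?_⟩
    obtain ⟨h1, h2⟩ := hm0 (m - s) (by omega)
    rw [← h2, Nat.sub_add_cancel (by omega)] at h1
    exact h1
  -- the prime ideal
  let T : Submonoid (ℕ → ℂ) :=
    { carrier := {f | ∃ H : MvPolynomial (Fin (d + 1 + 1)) ℂ, IsForm H ∧ H ≠ 0 ∧
        f = fun m => eval (fun i => pt U Φ m (J i)) H}
      mul_mem' := by
        rintro _ _ ⟨H, ⟨a, ha⟩, h0, rfl⟩ ⟨H', ⟨b, hb⟩, h0', rfl⟩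
        refine ⟨H * H', ⟨a + b, ha.mul hb⟩, mul_ne_zero h0 h0', ?_⟩
        funext m
        rw [map_mul]
        rfl
      one_mem' := ⟨1, ⟨0, isHomogeneous_one _ _⟩, one_ne_zero, by
        funext m
        rw [map_one]
        rfl⟩ }
  have hdisj : Disjoint (EZ : Set (ℕ → ℂ)) T := by
    rw [Set.disjoint_left]
    rintro f hf ⟨H, hH, h0, rfl⟩
    exact hJ H hH h0 (hform H hf)
  obtain ⟨I, hIp, hI, hIT⟩ := Ideal.exists_le_prime_disjoint EZ T hdisj
  have hdom : IsDomain ((ℕ → ℂ) ⧸ I) := Ideal.Quotient.isDomain I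
  let KR := FractionRing ((ℕ → ℂ) ⧸ I)
  let a : ((ℕ → ℂ) ⧸ I) →+* KR := algebraMap _ KR
  have hinj : Function.Injective a := IsFractionRing.injective _ KR
  let z : Fin (N + 1) → KR := fun j => a (mk' I fun m => pt U Φ m j)
  have hz : ∀ G : MvPolynomial (Fin (N + 1)) ℂ, W602.GT.val z G =
      a (mk' I fun m => eval (pt U Φ m) G) := by
    intro G
    have h1 := MvPolynomial.comp_aeval_apply (f := fun j => (fun m => pt U Φ m j : ℕ → ℂ))
      ((IsScalarTower.toAlgHom ℂ ((ℕ → ℂ) ⧸ I) KR).comp (mk' I)) G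
    have h2 : (aeval (fun j => (fun m => pt U Φ m j : ℕ → ℂ)) G : ℕ → ℂ) =
        fun m => eval (pt U Φ m) G := by
      funext m
      have h7 := MvPolynomial.comp_aeval_apply (f := fun j => (fun m => pt U Φ m j : ℕ → ℂ))
        (Pi.evalAlgHom ℂ (fun _ : ℕ => ℂ) m) G
      have h8 : (aeval (fun j => (fun m => pt U Φ m j : ℕ → ℂ)) G : ℕ → ℂ) m =
        aeval (fun i => pt U Φ m i) G := h7
      rw [h8, MvPolynomial.aeval_eq_eval]
    rw [← h2]
    exact h1.symm
  have hren : ∀ H : MvPolynomial (Fin (d + 1 + 1)) ℂ,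
      aeval (fun i => z (J i)) H = W602.GT.val z (rename J H) := by
    intro H
    unfold W602.GT.val
    rw [aeval_rename]
    rfl
  have hindz := indep_ratio (fun i => z (J i)) (fun H hH h0 => by
    rw [hren, hz, Ne, map_eq_zero_iff a hinj, mk'_zero]
    intro h1
    refine Set.disjoint_left.1 hIT h1 ⟨H, hH, h0, ?_⟩
    funext m
    rw [eval_rename]
    rfl)
  obtain ⟨hz0, hindz⟩ := hindz
  obtain ⟨D, i, hadd, hmul, hDB, hDi⟩ := exists_der_cf hB hI (K := KR) hd (Nat.lt_succ_self d) _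
    hindz
  have hDi' : D (z (J i.succ) / z (J 0)) = 1 := hDi
  have hDG : D (z (J i.succ)) * z (J 0) - z (J i.succ) * D (z (J 0)) ≠ 0 := by
    have h1 : z (J i.succ) = (z (J i.succ) / z (J 0)) * z (J 0) := (div_mul_cancel₀ _ hz0).symm
    have h2 : D (z (J i.succ)) = (z (J i.succ) / z (J 0)) * D (z (J 0)) + z (J 0) := by
      conv_lhs => rw [h1]
      rw [hmul, hDi', mul_one]
    have h3 : D (z (J i.succ)) * z (J 0) - z (J i.succ) * D (z (J 0)) = z (J 0) ^ 2 := by
      rw [h2]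
      linear_combination (-D (z (J 0))) * h1
    rw [h3]
    exact pow_ne_zero _ hz0
  have hQ0 : ∀ᶠ m in atTop, eval (pt U Φ m) Q ≠ 0 := by
    filter_upwards [eventually_shift hQ.1 s, hpt] with m h1 h2
    rwa [← h2]
  obtain ⟨b, hbB, hb⟩ := hQ.2
  obtain ⟨M, i1, i2, m, hm, W, hW1, hW2, ⟨c, l, hc, hcQ⟩, hN⟩ := fam_of_der hB A U hU hdet hI D
    hadd hmul hDB Φ (X (J 0)) (X (J i.succ)) (isHomogeneous_X _ _) (isHomogeneous_X _ _)
    (by simp only [eval_X]; exact hDG) Q hQe hQ0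
    ⟨_, hB.toCoefRing.shift' hbB s⟩ (by
      filter_upwards [eventually_shift hb s, hpt, eventually_shift hpt 1] with m h1 h2 h3
      rw [← h2, ← h3]
      have h4 : m + 1 + s = m + s + 1 := by ring
      rw [h4]
      exact h1)
  rw [aeval_X, aeval_X] at hN
  have hW0 : W (J 0) ≠ 0 := by
    intro h0
    apply hN
    rw [h0, Polynomial.derivative_zero, mul_zero, mul_zero]
  have hrf : ∀ G : MvPolynomial (Fin (N + 1)) ℂ,
      W602.GT.val (fun j => rf (W j)) G = rf (aeval W G) := by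
    intro G
    have h4 := MvPolynomial.comp_aeval_apply (f := W)
      (IsScalarTower.toAlgHom ℂ (Polynomial M) (RatFunc M)) G
    exact h4.symm
  obtain ⟨K, iK, iA, v, y, hy1, hgen, hdim, hrel⟩ := sub_point (F := RatFunc M)
    (fun j => rf (W j)) (j0 := J 0) (by rwa [Ne, rf_zero])
  have hrel' : ∀ G : MvPolynomial (Fin (N + 1)) ℂ, IsForm G →
      (W602.GT.val y G = 0 ↔ (aeval W G : Polynomial M) = 0) := by
    intro G hG
    rw [hrel G hG, hrf, rf_zero]
  have hind := indep_ratio (fun i => y (J i)) (fun H hH h0 => by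
    have h1 : aeval (fun i => y (J i)) H = W602.GT.val y (rename J H) := by
      unfold W602.GT.val
      rw [aeval_rename]
      rfl
    obtain ⟨e, he⟩ := hH
    rw [h1, Ne, hrel' _ ⟨e, he.rename_isHomogeneous⟩]
    intro h2
    refine Set.disjoint_left.1 hIT (hW2 _ h2) ⟨H, ⟨e, he⟩, h0, ?_⟩
    funext m
    rw [eval_rename]
    rfl)
  have hdv : d < v := by
    have h1 := hind.2.lift_cardinalMk_le_trdeg
    rw [hdim] at h1
    simp only [Cardinal.mk_fin, Cardinal.lift_natCast, Nat.cast_le] at h1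
    omega
  have hcQ0 : (aeval W Q : Polynomial M) ≠ 0 := by
    rw [hcQ]
    exact mul_ne_zero (by rwa [Ne, Polynomial.C_eq_zero]) (pow_ne_zero _ Polynomial.X_ne_zero)
  refine ⟨K, iK, iA, v, y, ?_, hgen, hdim, hdv, ?_, ?_, y (J i.succ) / y (J 0), fun hall => hN ?_⟩
  · exact Function.ne_iff.2 ⟨J 0, by rw [hy1]; exact one_ne_zero⟩
  · rwa [Ne, hrel' Q ⟨q, hQe⟩]
  · intro G hG h0
    rw [hrel' G hG]
    refine hW1 G hG ?_
    filter_upwards [eventually_shift h0 s, hpt] with m h1 h2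
    rw [← h2]
    exact h1
  · have hF : Fam y Q W l := ⟨hrel', c, hc, hcQ⟩
    have h1 := hall M m W l hm hF 1 (X (J i.succ)) (X (J 0)) (isHomogeneous_X _ _)
      (isHomogeneous_X _ _) (by rw [val_X, hy1]; exact one_ne_zero) (by rw [val_X, val_X])
    rwa [aeval_X, aeval_X] at h1

end Pool.Agent.Q13.DS
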