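import Pool.Agent.Q13.DS.Exp
import Pool.Agent.TH143.DE.Gen

/-!
The field of sequences given by rational functions in `m` and `q_1 ^ m, ..., q_s ^ m`.
-/

set_option autoImplicit false

namespace Pool.Agent.Q13.DS

open MvPolynomial Filter Pool.Agent.TH143.DE

variable {s : ℕ}

/-- The sequences which are given, from some index on, by rational functions in `m` and
`q_1 ^ m, ..., q_s ^ m`. -/
def expB (q : Fin s → ℝ) : Subalgebra ℂ (ℕ → ℂ) where
  carrier := {f | ∃ P R : MvPolynomial (Option (Fin s)) ℂ,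
    (∀ᶠ m in atTop, eval (ept q m) R ≠ 0) ∧
    ∀ᶠ m in atTop, f m = eval (ept q m) P / eval (ept q m) R}
  mul_mem' := by
    rintro f g ⟨P, R, hR, hf⟩ ⟨P', R', hR', hg⟩
    refine ⟨P * P', R * R', ?_, ?_⟩
    · filter_upwards [hR, hR'] with m h1 h2
      rw [map_mul]
      exact mul_ne_zero h1 h2
    · filter_upwards [hf, hg] with m h1 h2
      rw [Pi.mul_apply, h1, h2, map_mul, map_mul, div_mul_div_comm]
  add_mem' := by
    rintro f g ⟨P, R, hR, hf⟩ ⟨P', R', hR', hg⟩
    refine ⟨P * R' + R * P', R * R', ?_, ?_⟩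
    · filter_upwards [hR, hR'] with m h1 h2
      rw [map_mul]
      exact mul_ne_zero h1 h2
    · filter_upwards [hf, hg, hR, hR'] with m h1 h2 h3 h4
      rw [Pi.add_apply, h1, h2, div_add_div _ _ h3 h4]
      simp only [map_add, map_mul]
  algebraMap_mem' := fun c => ⟨C c, 1, Eventually.of_forall fun m => by
    rw [map_one]
    exact one_ne_zero, Eventually.of_forall fun m => by
    rw [eval_C, map_one, div_one]
    rfl⟩

theorem expB_poly (q : Fin s → ℝ) (P : MvPolynomial (Option (Fin s)) ℂ) :
    (fun m => eval (ept q m) P) ∈ expB q :=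
  ⟨P, 1, Eventually.of_forall fun m => by
    rw [map_one]
    exact one_ne_zero, Eventually.of_forall fun m => by rw [map_one, div_one]⟩

/-- the shift -/
noncomputable def shp (q : Fin s → ℝ) (P : MvPolynomial (Option (Fin s)) ℂ) :
    MvPolynomial (Option (Fin s)) ℂ :=
  bind₁ (fun o => o.elim (X none + 1) fun i => C ((q i : ℝ) : ℂ) * X (some i)) P

theorem eval_shp (q : Fin s → ℝ) (P : MvPolynomial (Option (Fin s)) ℂ) (m : ℕ) :
    eval (ept q m) (shp q P) = eval (ept q (m + 1)) P := by
  unfold shp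
  rw [eval, eval₂Hom_bind₁]
  congr 2
  funext o
  rcases o with _ | i
  · simp [ept]
  · simp [ept, pow_succ, mul_comm]

theorem expB_field {q : Fin s → ℝ} (hq : ∀ i, 0 < q i) : CoefField (expB q) := by
  refine ⟨⟨?_, ?_⟩, ?_⟩
  · rintro f ⟨P, R, hR, hf⟩
    refine ⟨shp q P, shp q R, ?_, ?_⟩
    · filter_upwards [eventually_shift hR 1] with m hm
      rwa [eval_shp]
    · filter_upwards [eventually_shift hf 1] with m hm
      rw [hm, eval_shp, eval_shp]
  · rintro f ⟨P, R, hR, hf⟩
    rcases dich hq P with h | h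
    · left
      filter_upwards [hf, h] with m hm h1
      rw [hm, h1, zero_div]
    · right
      filter_upwards [hf, hR, h] with m hm h1 h2
      rw [hm]
      exact div_ne_zero h2 h1
  · rintro f ⟨P, R, hR, hf⟩
    rcases dich hq P with h | h
    · refine ⟨0, 1, Eventually.of_forall fun m => by
        rw [map_one]
        exact one_ne_zero, ?_⟩
      filter_upwards [hf, h] with m hm h1
      rw [hm, h1, zero_div, inv_zero, map_zero, zero_div]
    · refine ⟨R, P, h, ?_⟩
      filter_upwards [hf] with m hm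
      rw [hm, inv_div]

theorem expB_tr (q : Fin s → ℝ) : TrLe (expB q) (s + 1) := by
  intro b hb
  choose P R hR hf using hb
  have hR0 : ∀ i, R i ≠ 0 := by
    intro i h0
    obtain ⟨m, hm⟩ := (hR i).exists
    rw [h0, map_zero] at hm
    exact hm rfl
  obtain ⟨G, hG, hG0⟩ := dep P R hR0
  refine ⟨G, hG, ?_⟩
  filter_upwards [eventually_all.2 hR, eventually_all.2 hf] with m h1 h2
  have h3 := hG0 (ept q m) h1
  rw [← h3]
  congr 2
  funext i
  exact h2 i

end Pool.Agent.Q13.DS
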