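import Mathlib

set_option autoImplicit false

/-!
Sequences that are polynomials in `m` and in the powers `q_1 ^ m, ..., q_s ^ m` of positive real
numbers: they are eventually zero or eventually nonzero.
-/

namespace Pool.Agent.Q13.DS

open MvPolynomial Filter Asymptotics Topology

/-- the point `(m, q_1 ^ m, ..., q_s ^ m)` -/
noncomputable def ept {s : ℕ} (q : Fin s → ℝ) (m : ℕ) : Option (Fin s) → ℂ :=
  fun o => o.elim (m : ℂ) fun i => ((q i : ℝ) : ℂ) ^ m

/-- the real sequence `m ^ a ρ ^ m` -/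
noncomputable def mon (κ : ℕ × ℝ) (m : ℕ) : ℝ := (m : ℝ) ^ κ.1 * κ.2 ^ m

lemma mon_littleO {κ κ' : ℕ × ℝ} (h0 : 0 < κ'.2) (h : κ'.2 < κ.2 ∨ (κ'.2 = κ.2 ∧ κ'.1 < κ.1)) :
    mon κ' =o[atTop] mon κ := by
  rcases h with h | ⟨h1, h2⟩
  · have h3 : (fun m : ℕ => (m : ℝ) ^ κ'.1 * κ'.2 ^ m) =o[atTop] fun m : ℕ => κ.2 ^ m := by
      refine isLittleO_pow_const_mul_const_pow_const_pow_of_norm_lt κ'.1 ?_
      rwa [Real.norm_of_nonneg h0.le, ← abs_of_pos (h0.trans h)] at *
    refine h3.trans_isBigO ?_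
    refine IsBigO.of_bound 1 ?_
    filter_upwards [eventually_ge_atTop 1] with m hm
    have h4 : (1 : ℝ) ≤ (m : ℝ) ^ κ.1 := one_le_pow₀ (by exact_mod_cast hm)
    have h5 : 0 < κ.2 ^ m := pow_pos (h0.trans h) m
    unfold mon
    rw [one_mul, norm_mul, Real.norm_of_nonneg h5.le, Real.norm_of_nonneg (by positivity)]
    nlinarith
  · have h3 : (fun m : ℕ => (m : ℝ) ^ κ'.1) =o[atTop] fun m : ℕ => (m : ℝ) ^ κ.1 :=
      (isLittleO_pow_pow_atTop_of_lt h2).comp_tendsto tendsto_natCast_atTop_atTop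
    unfold mon
    rw [h1]
    exact h3.mul_isBigO (isBigO_refl _ _)

lemma mon_pos {κ : ℕ × ℝ} (h : 0 < κ.2) {m : ℕ} (hm : 1 ≤ m) : 0 < mon κ m := by
  unfold mon
  have : (0 : ℝ) < m := by exact_mod_cast hm
  positivity

/-- **Dominant term.** -/
lemma sum_ne (T : Finset (ℕ × ℝ)) (hT : ∀ κ ∈ T, 0 < κ.2) (C : ℕ × ℝ → ℂ)
    (hC : ∃ κ ∈ T, C κ ≠ 0) : ∀ᶠ m in atTop, ∑ κ ∈ T, C κ * (mon κ m : ℂ) ≠ 0 := by
  classical
  set T' := T.filter fun κ => C κ ≠ 0 with hT'
  have hne : T'.Nonempty := by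
    obtain ⟨κ, h1, h2⟩ := hC
    exact ⟨κ, Finset.mem_filter.2 ⟨h1, h2⟩⟩
  obtain ⟨κ0, hκ0, hmax⟩ := Finset.exists_max_image T' (fun κ => toLex (κ.2, κ.1)) hne
  have hκ0' := Finset.mem_filter.1 hκ0
  have hpos : 0 < κ0.2 := hT _ hκ0'.1
  have hsum : ∀ m, ∑ κ ∈ T, C κ * (mon κ m : ℂ) =
      C κ0 * (mon κ0 m : ℂ) + ∑ κ ∈ T'.erase κ0, C κ * (mon κ m : ℂ) := by
    intro m
    rw [Finset.add_sum_erase T' (fun κ => C κ * (mon κ m : ℂ)) hκ0, hT', Finset.sum_filter]
    refine Finset.sum_congr rfl fun κ _ => ?_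
    split_ifs with h
    · rfl
    · push Not at h
      rw [h, zero_mul]
  have hlit : (fun m => ∑ κ ∈ T'.erase κ0, C κ * (mon κ m : ℂ)) =o[atTop] (mon κ0) := by
    refine IsLittleO.fun_sum fun κ hκ => ?_
    have h1 := Finset.mem_erase.1 hκ
    have h2 := Finset.mem_filter.1 h1.2
    have h3 := hmax κ h1.2
    have h4 : toLex (κ.2, κ.1) < toLex (κ0.2, κ0.1) := by
      refine lt_of_le_of_ne h3 fun h => h1.1 ?_
      have h5 : (κ.2, κ.1) = (κ0.2, κ0.1) := toLex.injective h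
      rw [Prod.mk.injEq] at h5
      exact Prod.ext h5.2 h5.1
    rw [Prod.Lex.toLex_lt_toLex] at h4
    have h5 : mon κ =o[atTop] mon κ0 := mon_littleO (hT _ h2.1) h4
    have h6 : (fun m => (mon κ m : ℂ)) =o[atTop] mon κ0 := by
      refine IsLittleO.of_norm_left ?_
      have h7 : (fun m => ‖mon κ m‖) =o[atTop] mon κ0 := h5.norm_left
      refine h7.congr_left fun m => ?_
      rw [Complex.norm_real]
    exact h6.const_mul_left _
  have hc : 0 < ‖C κ0‖ / 2 := by
    have := norm_pos_iff.2 hκ0'.2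
    linarith
  filter_upwards [hlit.bound hc, eventually_ge_atTop 1] with m h1 h2 h3
  rw [hsum] at h3
  have h4 : C κ0 * (mon κ0 m : ℂ) = - ∑ κ ∈ T'.erase κ0, C κ * (mon κ m : ℂ) :=
    eq_neg_of_add_eq_zero_left h3
  have h5 := congrArg norm h4
  rw [norm_neg, norm_mul, Complex.norm_real] at h5
  rw [← h5] at h1
  have h6 := mon_pos (κ := κ0) hpos h2
  have h7 := norm_pos_iff.2 hκ0'.2
  rw [Real.norm_of_nonneg h6.le] at h1
  nlinarith

theorem ept_eval {s : ℕ} (q : Fin s → ℝ) (P : MvPolynomial (Option (Fin s)) ℂ) (m : ℕ) :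
    eval (ept q m) P = ∑ e ∈ P.support,
      P.coeff e * (mon (e none, ∏ i, q i ^ e (some i)) m : ℂ) := by
  rw [eval_eq']
  refine Finset.sum_congr rfl fun e _ => ?_
  congr 1
  rw [Fintype.prod_option]
  unfold ept mon
  simp only [Option.elim_none, Option.elim_some]
  push_cast
  congr 1
  rw [← Finset.prod_pow]
  refine Finset.prod_congr rfl fun i _ => ?_
  rw [← pow_mul, ← pow_mul, mul_comm]

/-- **The dichotomy.** -/
theorem dich {s : ℕ} {q : Fin s → ℝ} (hq : ∀ i, 0 < q i) (P : MvPolynomial (Option (Fin s)) ℂ) :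
    (∀ᶠ m in atTop, eval (ept q m) P = 0) ∨ ∀ᶠ m in atTop, eval (ept q m) P ≠ 0 := by
  classical
  set key : (Option (Fin s) →₀ ℕ) → ℕ × ℝ := fun e => (e none, ∏ i, q i ^ e (some i)) with hkey
  set T := P.support.image key with hT
  set C : ℕ × ℝ → ℂ := fun κ => ∑ e ∈ P.support.filter (fun e => key e = κ), P.coeff e with hC
  have hsum : ∀ m, eval (ept q m) P = ∑ κ ∈ T, C κ * (mon κ m : ℂ) := by
    intro m
    rw [ept_eval, ← Finset.sum_fiberwise_of_maps_to (s := P.support) (t := T) (g := key)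
      fun e he => Finset.mem_image_of_mem _ he]
    refine Finset.sum_congr rfl fun κ _ => ?_
    rw [hC, Finset.sum_mul]
    refine Finset.sum_congr rfl fun e he => ?_
    rw [← (Finset.mem_filter.1 he).2]
  by_cases h : ∃ κ ∈ T, C κ ≠ 0
  · right
    have h1 := sum_ne T (fun κ hκ => by
      obtain ⟨e, _, rfl⟩ := Finset.mem_image.1 hκ
      change 0 < ∏ i, q i ^ e (some i)
      exact Finset.prod_pos fun i _ => pow_pos (hq i) _) C h
    filter_upwards [h1] with m hm
    rwa [hsum]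
  · left
    push Not at h
    refine Eventually.of_forall fun m => ?_
    rw [hsum]
    exact Finset.sum_eq_zero fun κ hκ => by rw [h κ hκ, zero_mul]

/-- clearing denominators -/
lemma clear {K : Type} [Field K] [Algebra ℂ K] {k : ℕ} (G : MvPolynomial (Fin k) ℂ) (N : ℕ)
    (hN : ∀ e ∈ G.support, ∀ i, e i ≤ N) (a r : Fin k → K) (hr : ∀ i, r i ≠ 0) :
    ∑ e ∈ G.support, algebraMap ℂ K (G.coeff e) * ∏ i, (a i ^ e i * r i ^ (N - e i)) =
      (∏ i, r i ^ N) * aeval (fun i => a i / r i) G := by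
  rw [aeval_def, eval₂_eq', Finset.mul_sum]
  refine Finset.sum_congr rfl fun e he => ?_
  rw [← mul_assoc, mul_comm (∏ i, r i ^ N), mul_assoc, ← Finset.prod_mul_distrib]
  congr 1
  refine Finset.prod_congr rfl fun i _ => ?_
  rw [div_pow]
  have h1 : r i ^ N = r i ^ (N - e i) * r i ^ e i := by
    rw [← pow_add, Nat.sub_add_cancel (hN e he i)]
  rw [h1]
  field_simp [hr i]

lemma pow_eq_zero_iff_of_pos' {z : ℂ} {N : ℕ} (h : z ^ N = 0) : z = 0 := by
  by_contra h1
  exact pow_ne_zero N h1 h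

/-- quotients of polynomials in `s + 1` functions are algebraically dependent -/
theorem dep {s : ℕ} (P R : Fin (s + 1 + 1) → MvPolynomial (Option (Fin s)) ℂ)
    (hR : ∀ i, R i ≠ 0) : ∃ G : MvPolynomial (Fin (s + 1 + 1)) ℂ, G ≠ 0 ∧
      ∀ x : Option (Fin s) → ℂ, (∀ i, eval x (R i) ≠ 0) →
        eval (fun i => eval x (P i) / eval x (R i)) G = 0 := by
  classical
  let L := FractionRing (MvPolynomial (Option (Fin s)) ℂ)
  let f : Fin (s + 1 + 1) → L := fun i =>
    algebraMap (MvPolynomial (Option (Fin s)) ℂ) L (P i) / algebraMap _ L (R i)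
  have hnot : ¬ AlgebraicIndependent ℂ f := by
    intro hai
    have h1 := hai.lift_cardinalMk_le_trdeg
    have h2 : Algebra.trdeg ℂ L = (s + 1 : ℕ) := by
      have h3 : Algebra.trdeg ℂ L = Algebra.trdeg ℂ (MvPolynomial (Option (Fin s)) ℂ) := by
        have h5 : Algebra.IsAlgebraic (MvPolynomial (Option (Fin s)) ℂ) L :=
          IsLocalization.isAlgebraic _ (nonZeroDivisors (MvPolynomial (Option (Fin s)) ℂ))
        have h6 := trdeg_add_eq ℂ (MvPolynomial (Option (Fin s)) ℂ) (A := L)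
        rw [trdeg_eq_zero (R := MvPolynomial (Option (Fin s)) ℂ), add_zero] at h6
        exact h6.symm
      rw [h3, MvPolynomial.trdeg_of_isDomain]
      simp
    rw [h2] at h1
    simp only [Cardinal.mk_fin, Cardinal.lift_natCast, Cardinal.lift_uzero] at h1
    have h7 : s + 1 + 1 ≤ s + 1 := by exact_mod_cast h1
    omega
  rw [algebraicIndependent_iff] at hnot
  push Not at hnot
  obtain ⟨G, hG, hG0⟩ := hnot
  refine ⟨G, hG0, fun x hx => ?_⟩
  obtain ⟨N, hN⟩ : ∃ N, ∀ e ∈ G.support, ∀ i, e i ≤ N := by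
    refine ⟨G.totalDegree, fun e he i => ?_⟩
    have h1 := le_totalDegree he
    refine le_trans ?_ h1
    by_cases hi : e i = 0
    · omega
    · exact Finset.single_le_sum (f := fun j => e j) (fun _ _ => Nat.zero_le _)
        (Finsupp.mem_support_iff.2 hi)
  set G' : MvPolynomial (Option (Fin s)) ℂ :=
    ∑ e ∈ G.support, C (G.coeff e) * ∏ i, (P i ^ e i * R i ^ (N - e i)) with hG'
  have hL : Function.Injective (algebraMap (MvPolynomial (Option (Fin s)) ℂ) L) :=
    IsFractionRing.injective _ L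
  have h1 : G' = 0 := by
    apply hL
    rw [map_zero, hG', map_sum]
    have h2 := clear (K := L) G N hN (fun i => algebraMap _ L (P i)) (fun i => algebraMap _ L (R i))
      (fun i h => hR i (hL (by rw [h, map_zero])))
    have h3 : aeval (fun i => algebraMap (MvPolynomial (Option (Fin s)) ℂ) L (P i) /
      algebraMap _ L (R i)) G = 0 := hG
    rw [h3, mul_zero] at h2
    rw [← h2]
    refine Finset.sum_congr rfl fun e _ => ?_
    rw [map_mul, map_prod]
    congr 1
    refine Finset.prod_congr rfl fun i _ => ?_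
    rw [map_mul, map_pow, map_pow]
  have h2 := congrArg (eval x) h1
  rw [map_zero, hG', map_sum] at h2
  have h3 := clear (K := ℂ) G N hN (fun i => eval x (P i)) (fun i => eval x (R i)) hx
  have h4 : ∑ e ∈ G.support, eval x (C (G.coeff e) * ∏ i, (P i ^ e i * R i ^ (N - e i))) =
      ∑ e ∈ G.support, algebraMap ℂ ℂ (G.coeff e) *
        ∏ i, (eval x (P i) ^ e i * eval x (R i) ^ (N - e i)) := by
    refine Finset.sum_congr rfl fun e _ => ?_
    rw [map_mul, eval_C, map_prod]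
    congr 1
    refine Finset.prod_congr rfl fun i _ => ?_
    rw [map_mul, map_pow, map_pow]
  rw [h4, h3] at h2
  rcases mul_eq_zero.1 h2 with h5 | h5
  · exfalso
    rw [Finset.prod_eq_zero_iff] at h5
    obtain ⟨i, _, hi⟩ := h5
    exact hx i (pow_eq_zero_iff_of_pos' hi)
  · rwa [MvPolynomial.aeval_eq_eval] at h5

end Pool.Agent.Q13.DS
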