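import Pool.Agent.Q13.DS.Alg
import Pool.Agent.TH143.HE.PCur
import Pool.Agent.TH143.TW.Tower

/-!
Sequences of points given by linear recurrences over difference fields: polynomial sequences.
-/

set_option autoImplicit false

namespace Pool.Agent.Q13.DS

open MvPolynomial Filter Pool.Agent.TH143 Pool.Agent.TH143.DE Pool.Agent.TH143.HE
  Pool.Agent.TH143.TW

variable {N : ℕ} {R : Type} [CommRing R]

/-- polynomial sequences satisfy linear recurrences with constant coefficients -/
theorem linRec_poly (p : Polynomial ℂ) : LinRec EC fun m : ℕ => p.eval (m : ℂ) := by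
  classical
  refine ⟨p.natDegree + 1, fun k _ => (((-1 : ℤ) ^ (p.natDegree + 1 - k) *
    (p.natDegree + 1).choose k : ℤ) : ℂ), fun k => ⟨_, Eventually.of_forall fun _ => rfl⟩,
    ⟨p.natDegree + 1, le_rfl, ?_⟩, ?_⟩
  · intro h
    obtain ⟨m, hm⟩ := h.exists
    simp at hm
  · refine Eventually.of_forall fun m => ?_
    have h1 := congrFun (Polynomial.fwdDiff_iter_degree_add_one_eq_zero p) (m : ℂ)
    rw [fwdDiff_iter_eq_sum_shift, Pi.zero_apply] at h1
    rw [← h1]
    refine Finset.sum_congr rfl fun k _ => ?_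
    rw [zsmul_eq_mul]
    congr 1
    push_cast
    rw [nsmul_eq_mul, mul_one]

theorem LinRec.mono {B B' : Subalgebra ℂ (ℕ → ℂ)} (h : B ≤ B') {f : ℕ → ℂ} (hf : LinRec B f) :
    LinRec B' f := by
  obtain ⟨r, a, h1, h2, h3⟩ := hf
  exact ⟨r, a, fun k => h (h1 k), h2, h3⟩

theorem EC_le {B : Subalgebra ℂ (ℕ → ℂ)} (hB : Tow B) : EC ≤ B := by
  induction hB with
  | base => exact le_refl _
  | step h1 h2 h3 ih => exact ih.trans h3.1

/-- **The polynomial sequence** of points on a rational curve. -/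
theorem exists_poly_rat {L : Type} [Field L] [CharZero L] (φ : R →+* L)
    {I I' : Ideal (MvPolynomial (Fin (N + 1)) R)} {p : Fin (N + 1) → Polynomial L}
    (h : RCur φ I I' p) :
    ∃ P : Fin (N + 1) → Polynomial L, (∀ m : ℕ, (fun j => (P j).eval (m : L)) ≠ 0) ∧
      (∀ m : ℕ, IsPtP φ I fun j => (P j).eval (m : L)) ∧
      (∀ m : ℕ, ¬ IsPtP φ I' fun j => (P j).eval (m : L)) ∧
      ∀ v : Fin (N + 1) → L, v ≠ 0 →
        {m : ℕ | ∀ i j, (P i).eval (m : L) * v j = (P j).eval (m : L) * v i}.Finite := by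
  classical
  obtain ⟨h1, ⟨G', hG', hGh, hne⟩, hnc⟩ := h
  have hinj : ∀ s : ℕ, Function.Injective fun m : ℕ => ((m + s : ℕ) : L) := by
    intro s a b hab
    have := Nat.cast_injective hab
    omega
  have hfin : ∀ (q : Polynomial L), q ≠ 0 → ∀ s : ℕ,
      {m : ℕ | q.eval ((m + s : ℕ) : L) = 0}.Finite := by
    intro q hq s
    have h2 : {z : L | q.IsRoot z}.Finite := Polynomial.finite_setOfPred_isRoot hq
    exact h2.preimage (hinj s).injOn
  have hnc' := (nc_iff p).1 hnc
  obtain ⟨j0, k0, u0, v0, huv⟩ := hnc'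
  have hj0 : p j0 ≠ 0 ∨ p k0 ≠ 0 := by
    by_contra hcon
    push Not at hcon
    apply huv
    rw [hcon.1, hcon.2]
  obtain ⟨k1, hk1⟩ : ∃ k, p k ≠ 0 := by
    rcases hj0 with h2 | h2
    · exact ⟨_, h2⟩
    · exact ⟨_, h2⟩
  obtain ⟨s, hs⟩ : ∃ s : ℕ, ∀ m, s ≤ m → (p k1).eval (m : L) ≠ 0 ∧
      (eval₂ (Polynomial.C.comp φ) p G').eval (m : L) ≠ 0 := by
    have h2 := (hfin _ hk1 0).compl_mem_cofinite
    have h3 := (hfin _ hne 0).compl_mem_cofinite
    rw [Nat.cofinite_eq_atTop] at h2 h3
    exact eventually_atTop.1 (Filter.Eventually.and h2 h3)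
  have hev : ∀ (j : Fin (N + 1)) (m : ℕ), ((p j).comp (Polynomial.X + Polynomial.C (s : L))).eval
      (m : L) = (p j).eval ((m + s : ℕ) : L) := by
    intro j m
    simp
  refine ⟨fun j => (p j).comp (Polynomial.X + Polynomial.C (s : L)), fun m h0 => ?_,
    fun m G hG hGf => ?_, fun m hcon => ?_, fun v hv => ?_⟩
  · have h2 := congrFun h0 k1
    simp only [hev] at h2
    exact (hs (m + s) (by omega)).1 h2
  · simp only [hev]
    rw [← eval₂_eval, h1 G hG hGf, Polynomial.eval_zero]
  · simp only [hev] at hcon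
    apply (hs (m + s) (by omega)).2
    rw [eval₂_eval]
    exact hcon G' hG' hGh
  · -- a nonzero minor
    simp only [hev]
    obtain ⟨i, j, hij⟩ : ∃ i j, p i * Polynomial.C (v j) - p j * Polynomial.C (v i) ≠ 0 := by
      by_contra hcon
      push Not at hcon
      obtain ⟨k, hk⟩ := Function.ne_iff.1 hv
      have hk' : v k ≠ 0 := hk
      apply huv
      have h2 : ∀ i u, (p i).eval u = (p k).eval u * (v i / v k) := by
        intro i u
        have h3 := congrArg (Polynomial.eval u) (hcon i k)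
        simp only [Polynomial.eval_sub, Polynomial.eval_mul, Polynomial.eval_C,
          Polynomial.eval_zero] at h3
        rw [mul_div_assoc', eq_div_iff hk']
        linear_combination h3
      rw [h2 j0 u0, h2 k0 v0, h2 k0 u0, h2 j0 v0]
      ring
    refine (hfin _ hij s).subset fun m hm => ?_
    have h3 := hm i j
    change Polynomial.eval _ _ = 0
    rw [Polynomial.eval_sub, Polynomial.eval_mul, Polynomial.eval_mul, Polynomial.eval_C,
      Polynomial.eval_C, sub_eq_zero]
    exact h3

/-- sequences which are algebraic over the constants have finitely many values -/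
theorem IntOver.finite {f : ℕ → ℂ} (h : IntOver EC f) :
    ∃ S : Set ℂ, S.Finite ∧ ∀ᶠ m in atTop, f m ∈ S := by
  classical
  obtain ⟨e, b, he, hb, h⟩ := h
  choose c hc using hb
  let P : Polynomial ℂ := Polynomial.X ^ e + ∑ k ∈ Finset.range e,
    Polynomial.C (c k) * Polynomial.X ^ k
  have hP : P ≠ 0 := by
    intro h0
    have h1 := congrArg (fun q => Polynomial.coeff q e) h0
    simp only [P, Polynomial.coeff_add, Polynomial.coeff_X_pow, if_true,
      Polynomial.finsetSum_coeff, Polynomial.coeff_C_mul_X_pow, Polynomial.coeff_zero] at h1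
    rw [Finset.sum_eq_zero] at h1
    · simp at h1
    · intro k hk
      rw [if_neg]
      have := Finset.mem_range.1 hk
      omega
  refine ⟨{z | P.IsRoot z}, Polynomial.finite_setOfPred_isRoot hP, ?_⟩
  have h1 : ∀ᶠ m in atTop, ∀ k ∈ Finset.range e, b k m = c k := by
    rw [Finset.eventually_all]
    intro k _
    exact hc k
  filter_upwards [h, h1] with m h2 h3
  change P.eval (f m) = 0
  simp only [P, Polynomial.eval_add, Polynomial.eval_pow, Polynomial.eval_X,
    Polynomial.eval_finsetSum, Polynomial.eval_mul, Polynomial.eval_C]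
  rw [← h2]
  congr 1
  exact Finset.sum_congr rfl fun k hk => by rw [h3 k hk]

end Pool.Agent.Q13.DS
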